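import Pool.Agent.W945.Lc.Stm

/-!
# Project LC: BASE
-/

set_option autoImplicit false

namespace Pool.Agent.W308.Lc.BASE

open Finset Pool.Agent.W945.Pw Pool.Agent.W945.Lc

theorem avail_of {n : ℕ} {g : ℕ → Fn n} {P : ℕ → Prop} {L : List (Fn n)} {a : Fn n}
    (h : Av g P a) (hL : ∀ j, P j → g j ∈ L) : Avail L a := by
  obtain ⟨c, h | h | ⟨j, hj, h⟩⟩ := h
  · exact ⟨c, Or.inl h⟩
  · exact ⟨c, Or.inr (Or.inl h)⟩
  · exact ⟨c, Or.inr (Or.inr ⟨g j, hL j hj, h⟩)⟩

theorem main : Pool.Agent.W945.Lc.BASE.Stm := by
  intro n s g K f hK hg hf
  have key : ∀ t, t ≤ s → ∃ L : List (Fn n), IsCircuit L ∧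
      L.length + (K.filter (· < t)).card = t ∧ ∀ j, j < t ∧ j ∉ K → g j ∈ L := by
    intro t
    induction t with
    | zero =>
      intro _
      exact ⟨[], IsCircuit.nil, by simp, fun j hj => absurd hj.1 (Nat.not_lt_zero _)⟩
    | succ t ih =>
      intro ht
      obtain ⟨L, hL1, hL2, hL3⟩ := ih (by omega)
      by_cases htK : t ∈ K
      · refine ⟨L, hL1, ?_, fun j hj => hL3 j ⟨?_, hj.2⟩⟩
        · have h1 : K.filter (· < t + 1) = insert t (K.filter (· < t)) := by
            ext j
            simp only [mem_filter, mem_insert]
            constructor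
            · rintro ⟨h1, h2⟩
              by_cases hjt : j = t
              · exact Or.inl hjt
              · exact Or.inr ⟨h1, by omega⟩
            · rintro (rfl | ⟨h1, h2⟩)
              · exact ⟨htK, by omega⟩
              · exact ⟨h1, by omega⟩
          rw [h1, card_insert_of_notMem (by simp)]
          omega
        · have : j ≠ t := by
            rintro rfl
            exact hj.2 htK
          omega
      · obtain ⟨a, b, ha, hb, hgt⟩ := hg t (by omega) htK
        refine ⟨(fun x => a x && b x) :: L, IsCircuit.and L a b hL1 (avail_of ha hL3)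
          (avail_of hb hL3), ?_, fun j hj => ?_⟩
        · have h1 : K.filter (· < t + 1) = K.filter (· < t) := by
            ext j
            simp only [mem_filter]
            constructor
            · rintro ⟨h1, h2⟩
              have : j ≠ t := by
                rintro rfl
                exact htK h1
              exact ⟨h1, by omega⟩
            · rintro ⟨h1, h2⟩
              exact ⟨h1, by omega⟩
          rw [h1, List.length_cons]
          omega
        · by_cases hjt : j = t
          · subst hjt
            have : g j = fun x => a x && b x := funext hgt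
            rw [this]
            exact List.mem_cons_self
          · exact List.mem_cons_of_mem _ (hL3 j ⟨by omega, hj.2⟩)
  obtain ⟨L, h1, h2, h3⟩ := key s le_rfl
  refine ⟨L, h1, ?_, avail_of hf h3⟩
  have h4 : K.filter (· < s) = K := by
    ext j
    simp only [mem_filter, and_iff_left_iff_imp]
    intro hj
    exact mem_range.1 (hK hj)
  rw [h4] at h2
  omega

end Pool.Agent.W308.Lc.BASE
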